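import Mathlib
import Pool.Agent.W301.LinI3

set_option autoImplicit false

namespace Pool.Agent.Results.MP_bf81c2_nt.LinnikExponent

open Pool.Agent.W301.Lin

/-- The extensions of degree `n` of the number field `K` inside the algebraic closure of `K` whose
absolute discriminant has absolute value at most `X`. -/
def Fields (K : Type) [Field K] [NumberField K] (n : ℕ) (X : ℝ) :
    Set (IntermediateField K (AlgebraicClosure K)) :=
  {L | Module.finrank K L = n ∧
    ∃ h : NumberField L, ((|@NumberField.discr L _ h| : ℤ) : ℝ) ≤ X}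

/-- the admissible exponents -/
def G (n : ℕ) : Set ℝ :=
  {x | ∃ r d u m t : ℕ, 0 < r ∧ t ≤ n ∧ (r + 1) * n ≤ (r + d).choose r ∧
      n * (n - t) ^ m < n ^ m ∧ m ≤ 2 ^ u ∧ x = Ex n r d u t}

lemma G_nonempty (n : ℕ) (hn : 2 ≤ n) : (G n).Nonempty := by
  refine ⟨_, 1, 2 * n - 1, 0, 1, n, one_pos, le_rfl, ?_, ?_, ?_, rfl⟩
  · rw [Nat.choose_one_right]
    omega
  · simp
    omega
  · simp

lemma G_bdd (n : ℕ) : BddBelow (G n) := by
  refine ⟨0, ?_⟩
  rintro x ⟨r, d, u, m, t, -, -, -, -, -, rfl⟩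
  unfold Ex
  positivity

/-- There is a function `e(n)` whose growth is at most `(1 / (8 (log 2)^2) + o(1)) (log n)^2`, such
that, for every `n ≥ 2`, the number of extensions of degree `n` with absolute discriminant at most
`X` of a number field `K` is at most `C X^{e(n)}`, with `C` depending only on `n` and the degree
of `K`. -/
theorem result : ∃ e : ℕ → ℝ,
    (∀ c : ℝ, 1 / (8 * (Real.log 2) ^ 2) < c →
      ∀ᶠ n : ℕ in Filter.atTop, e n ≤ c * (Real.log n) ^ 2) ∧
    ∀ n : ℕ, 2 ≤ n → ∀ k0 : ℕ, ∃ C : ℝ, ∀ (K : Type) [Field K] [NumberField K],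
      Module.finrank ℚ K = k0 → ∀ X : ℝ, 1 ≤ X →
        (Fields K n X).Finite ∧ ((Fields K n X).ncard : ℝ) ≤ C * X ^ e n := by
  refine ⟨fun n => sInf (G n) + 1, ?_, ?_⟩
  · intro c hc
    obtain ⟨c', hc1, hc2⟩ := exists_between hc
    have hlog : Filter.Tendsto (fun n : ℕ => Real.log n) Filter.atTop Filter.atTop :=
      Real.tendsto_log_atTop.comp tendsto_natCast_atTop_atTop
    have h1 : Filter.Tendsto (fun n : ℕ => (c - c') * (Real.log n) ^ 2) Filter.atTop
        Filter.atTop :=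
      Filter.Tendsto.const_mul_atTop (sub_pos.2 hc2)
        ((Filter.tendsto_pow_atTop two_ne_zero).comp hlog)
    filter_upwards [eventually_good c' hc1, h1.eventually_ge_atTop 1] with n hn1 hn2
    obtain ⟨r, d, u, m, t, h2, h3, h4, h5, h6, h7⟩ := hn1
    have h8 : sInf (G n) ≤ Ex n r d u t :=
      csInf_le (G_bdd n) ⟨r, d, u, m, t, h2, h3, h4, h5, h6, rfl⟩
    linarith
  · intro n hn k0
    obtain ⟨x, hx, hxlt⟩ := exists_lt_of_csInf_lt (G_nonempty n hn) (lt_add_one (sInf (G n)))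
    obtain ⟨r, d, u, m, t, h2, h3, h4, h5, h6, rfl⟩ := hx
    obtain ⟨C, hC⟩ := card_FS_le_rpow n r d u m t k0 (by omega) h2 h3 h4 h5 h6
    refine ⟨|C|, ?_⟩
    intro K _ _ hK X hX
    obtain ⟨h7, h8⟩ := hC K hK X hX
    refine ⟨h7, h8.trans ?_⟩
    calc C * X ^ Ex n r d u t ≤ |C| * X ^ Ex n r d u t := by
          gcongr
          exact le_abs_self C
      _ ≤ |C| * X ^ (sInf (G n) + 1) := by
          gcongr

end Pool.Agent.Results.MP_bf81c2_nt.LinnikExponent
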